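import Pool.Agent.helper54.UG.Spec

/-!
# Project ug (MP_a2a22c_al), row KOL: Kolchin's theorem for unipotent subgroups of `SL(n, ℤ)`.
-/

set_option autoImplicit false

namespace Pool.Agent.UG

open Matrix Pool.Agent.H48SL

/-- the restriction of a representation to an invariant subspace -/
def KOL_res {V : Type} [AddCommGroup V] [Module ℚ V] {G : Type} [Group G]
    (ρ : G →* Module.End ℚ V) (W : Submodule ℚ V) (hW : ∀ g, ∀ w ∈ W, ρ g w ∈ W) :
    G →* Module.End ℚ W where
  toFun g := (ρ g).restrict (hW g)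
  map_one' := by
    ext w
    simp
  map_mul' g h := by
    ext w
    simp

theorem KOL_res_apply {V : Type} [AddCommGroup V] [Module ℚ V] {G : Type} [Group G]
    (ρ : G →* Module.End ℚ V) (W : Submodule ℚ V) (hW : ∀ g, ∀ w ∈ W, ρ g w ∈ W) (g : G) (w : W) :
    ((KOL_res ρ W hW g w : W) : V) = ρ g w := rfl

theorem KOL_res_pow {V : Type} [AddCommGroup V] [Module ℚ V] {G : Type} [Group G]
    (ρ : G →* Module.End ℚ V) (W : Submodule ℚ V) (hW : ∀ g, ∀ w ∈ W, ρ g w ∈ W) (g : G) (k : ℕ)
    (w : W) :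
    ((((KOL_res ρ W hW g - 1) ^ k : Module.End ℚ W) w : W) : V) = ((ρ g - 1) ^ k) w := by
  induction k with
  | zero => simp
  | succ k ih =>
    rw [pow_succ', pow_succ', Module.End.mul_apply, Module.End.mul_apply, LinearMap.sub_apply,
      LinearMap.sub_apply, Submodule.coe_sub, KOL_res_apply, ih]
    simp only [Module.End.one_apply]
    rw [ih]

/-- the fixed vector -/
theorem KOL_fix (hKOT : KOT_stmt) (V : Type) [AddCommGroup V] [Module ℚ V]
    [FiniteDimensional ℚ V] (G : Type) [Group G] (ρ : G →* Module.End ℚ V)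
    (hn : ∀ g, IsNilpotent (ρ g - 1)) (hV : 0 < Module.finrank ℚ V) :
    ∃ v : V, v ≠ 0 ∧ ∀ g, ρ g v = v := by
  classical
  -- an invariant subspace of minimal dimension
  have hex : ∃ d : ℕ, ∃ W : Submodule ℚ V, W ≠ ⊥ ∧ (∀ g, ∀ w ∈ W, ρ g w ∈ W) ∧
      Module.finrank ℚ W = d := by
    refine ⟨_, ⊤, ?_, fun g w _ => Submodule.mem_top, rfl⟩
    intro h
    have h1 : Module.finrank ℚ (⊤ : Submodule ℚ V) = 0 := by rw [h]; exact finrank_bot ℚ V
    rw [finrank_top] at h1
    omega
  obtain ⟨W, hW0, hWi, hWd⟩ := Nat.find_spec hex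
  have hmin : ∀ W' : Submodule ℚ V, W' ≠ ⊥ → (∀ g, ∀ w ∈ W', ρ g w ∈ W') → W' ≤ W → W' = W := by
    intro W' h1 h2 h3
    apply Submodule.eq_of_le_of_finrank_le h3
    rw [hWd]
    exact Nat.find_min' hex ⟨W', h1, h2, rfl⟩
  set σ := KOL_res ρ W hWi with hσ
  set R : Submodule ℚ (Module.End ℚ W) := Submodule.span ℚ (Set.range σ) with hR
  have hRmul : ∀ a ∈ R, ∀ b ∈ R, a * b ∈ R := by
    intro a ha b hb
    have h1 : a * b ∈ R * R := Submodule.mul_mem_mul ha hb
    rw [hR, Submodule.span_mul_span] at h1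
    refine Submodule.span_mono ?_ h1
    rintro x ⟨y, ⟨g, rfl⟩, z, ⟨h, rfl⟩, rfl⟩
    exact ⟨g * h, map_mul σ g h⟩
  have hσR : ∀ g, σ g ∈ R := fun g => Submodule.subset_span ⟨g, rfl⟩
  have h1R : (1 : Module.End ℚ W) ∈ R := by
    have := hσR 1
    rwa [map_one] at this
  have htrans : ∀ w : W, w ≠ 0 → ∀ w' : W, ∃ r ∈ R, r w = w' := by
    intro w hw w'
    set ev : Module.End ℚ W →ₗ[ℚ] V := W.subtype ∘ₗ (LinearMap.applyₗ w) with hev
    have hevr : ∀ r : Module.End ℚ W, ev r = ((r w : W) : V) := fun r => rfl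
    have hM := hmin (R.map ev) ?_ ?_ ?_
    · have h1 : (w' : V) ∈ R.map ev := by rw [hM]; exact w'.2
      obtain ⟨r, hr, hr'⟩ := h1
      refine ⟨r, hr, ?_⟩
      apply Subtype.ext
      rw [← hevr]
      exact hr'
    · intro h
      have h1 : ev 1 ∈ R.map ev := Submodule.mem_map_of_mem h1R
      rw [h, Submodule.mem_bot, hevr, Module.End.one_apply] at h1
      exact hw (Subtype.ext h1)
    · rintro g _ ⟨r, hr, rfl⟩
      refine ⟨σ g * r, hRmul _ (hσR g) _ hr, ?_⟩
      rw [hevr, hevr, Module.End.mul_apply]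
      rfl
    · rintro _ ⟨r, hr, rfl⟩
      rw [hevr]
      exact (r w).2
  have htr : ∀ g, LinearMap.trace ℚ W (σ g) = LinearMap.trace ℚ W 1 := by
    intro g
    have h1 : IsNilpotent (σ g - 1) := by
      obtain ⟨k, hk⟩ := hn g
      refine ⟨k, ?_⟩
      apply LinearMap.ext
      intro w
      apply Subtype.ext
      rw [hσ, KOL_res_pow, hk]
      simp
    have h2 := (LinearMap.isNilpotent_trace_of_isNilpotent h1).eq_zero
    rw [map_sub] at h2
    linarith
  have hfix : ∀ g, σ g = 1 := by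
    intro g
    have h1 : σ g - 1 = 0 := by
      refine hKOT W R hRmul htrans (σ g - 1) (Submodule.sub_mem _ (hσR g) h1R) ?_
      intro r hr
      refine Submodule.span_induction ?_ ?_ ?_ ?_ hr
      · rintro x ⟨h, rfl⟩
        rw [mul_sub, mul_one, ← map_mul, map_sub, htr, htr, sub_self]
      · rw [zero_mul, map_zero]
      · intro x y _ _ hx hy
        rw [add_mul, map_add, hx, hy, add_zero]
      · intro a x _ hx
        rw [smul_mul_assoc, map_smul, hx, smul_zero]
    exact sub_eq_zero.1 h1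
  obtain ⟨v, hvW, hv0⟩ := Submodule.exists_mem_ne_zero_of_ne_bot hW0
  refine ⟨v, hv0, ?_⟩
  intro g
  have h1 : ((σ g ⟨v, hvW⟩ : W) : V) = ρ g v := rfl
  rw [hfix g] at h1
  exact h1.symm

/-- the representation on the quotient by an invariant subspace -/
def KOL_quo {V : Type} [AddCommGroup V] [Module ℚ V] {G : Type} [Group G]
    (ρ : G →* Module.End ℚ V) (W : Submodule ℚ V) (hW : ∀ g, W ≤ W.comap (ρ g)) :
    G →* Module.End ℚ (V ⧸ W) where
  toFun g := W.mapQ W (ρ g) (hW g)
  map_one' := by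
    apply LinearMap.ext
    intro x
    obtain ⟨y, rfl⟩ := W.mkQ_surjective x
    rw [Submodule.mkQ_apply, Submodule.mapQ_apply, map_one]
    rfl
  map_mul' g h := by
    apply LinearMap.ext
    intro x
    obtain ⟨y, rfl⟩ := W.mkQ_surjective x
    rw [Submodule.mkQ_apply, Submodule.mapQ_apply, Module.End.mul_apply, Submodule.mapQ_apply,
      Submodule.mapQ_apply, map_mul]
    rfl

theorem KOL_quo_apply {V : Type} [AddCommGroup V] [Module ℚ V] {G : Type} [Group G]
    (ρ : G →* Module.End ℚ V) (W : Submodule ℚ V) (hW : ∀ g, W ≤ W.comap (ρ g)) (g : G) (v : V) :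
    KOL_quo ρ W hW g (W.mkQ v) = W.mkQ (ρ g v) := rfl

theorem KOL_quo_pow {V : Type} [AddCommGroup V] [Module ℚ V] {G : Type} [Group G]
    (ρ : G →* Module.End ℚ V) (W : Submodule ℚ V) (hW : ∀ g, W ≤ W.comap (ρ g)) (g : G) (k : ℕ)
    (v : V) :
    ((KOL_quo ρ W hW g - 1) ^ k : Module.End ℚ (V ⧸ W)) (W.mkQ v) = W.mkQ (((ρ g - 1) ^ k) v) := by
  induction k with
  | zero => simp
  | succ k ih =>
    rw [pow_succ', pow_succ', Module.End.mul_apply, Module.End.mul_apply, ih,
      LinearMap.sub_apply, LinearMap.sub_apply, KOL_quo_apply, map_sub]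
    rfl

theorem KOL_quo_prod {V : Type} [AddCommGroup V] [Module ℚ V] {G : Type} [Group G]
    (ρ : G →* Module.End ℚ V) (W : Submodule ℚ V) (hW : ∀ g, W ≤ W.comap (ρ g)) (l : List G)
    (v : V) :
    ((l.map (fun g => KOL_quo ρ W hW g - 1)).prod : Module.End ℚ (V ⧸ W)) (W.mkQ v) =
      W.mkQ (((l.map (fun g => ρ g - 1)).prod : Module.End ℚ V) v) := by
  induction l with
  | nil => simp
  | cons a l ih =>
    rw [List.map_cons, List.prod_cons, List.map_cons, List.prod_cons, Module.End.mul_apply,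
      Module.End.mul_apply, ih, LinearMap.sub_apply, LinearMap.sub_apply, KOL_quo_apply, map_sub]
    rfl

/-- Kolchin's theorem for representations -/
theorem KOL_main (hKOT : KOT_stmt) : ∀ (d : ℕ) (V : Type) [AddCommGroup V] [Module ℚ V]
    [FiniteDimensional ℚ V] (G : Type) [Group G] (ρ : G →* Module.End ℚ V),
    (∀ g, IsNilpotent (ρ g - 1)) → Module.finrank ℚ V = d → ∀ l : List G, d ≤ l.length →
    (l.map (fun g => ρ g - 1)).prod = 0 := by
  intro d
  induction d with
  | zero =>
    intro V _ _ _ G _ ρ hn hV l hl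
    have := Module.finrank_zero_iff.1 hV
    apply LinearMap.ext
    intro v
    exact Subsingleton.elim _ _
  | succ d ih =>
    intro V _ _ _ G _ ρ hn hV l hl
    obtain ⟨v, hv0, hv⟩ := KOL_fix hKOT V G ρ hn (by omega)
    cases l with
    | nil => simp at hl
    | cons a l =>
      have hl' : d ≤ l.length := by simpa using hl
      have hW : ∀ g, (Submodule.span ℚ {v}) ≤ (Submodule.span ℚ {v}).comap (ρ g) := by
        intro g x hx
        obtain ⟨c, rfl⟩ := Submodule.mem_span_singleton.1 hx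
        rw [Submodule.mem_comap, map_smul, hv]
        exact hx
      have hd : Module.finrank ℚ (V ⧸ Submodule.span ℚ {v}) = d := by
        have h1 := Submodule.finrank_quotient_add_finrank (Submodule.span ℚ {v})
        rw [finrank_span_singleton hv0, hV] at h1
        omega
      have hn' : ∀ g, IsNilpotent (KOL_quo ρ (Submodule.span ℚ {v}) hW g - 1) := by
        intro g
        obtain ⟨k, hk⟩ := hn g
        refine ⟨k, ?_⟩
        apply LinearMap.ext
        intro x
        obtain ⟨y, rfl⟩ := (Submodule.span ℚ {v}).mkQ_surjective x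
        rw [KOL_quo_pow, hk]
        simp
      have key := ih (V ⧸ Submodule.span ℚ {v}) G (KOL_quo ρ (Submodule.span ℚ {v}) hW) hn' hd l hl'
      apply LinearMap.ext
      intro x
      rw [List.map_cons, List.prod_cons, Module.End.mul_apply]
      have h1 := KOL_quo_prod ρ (Submodule.span ℚ {v}) hW l x
      rw [key, LinearMap.zero_apply] at h1
      have h2 := (Submodule.Quotient.mk_eq_zero _).1 h1.symm
      obtain ⟨c, hc⟩ := Submodule.mem_span_singleton.1 h2
      rw [← hc, LinearMap.sub_apply, map_smul, hv, Module.End.one_apply, sub_self,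
        LinearMap.zero_apply]

theorem KOL (hKOT : KOT_stmt) : KOL_stmt := by
  intro n A hA
  refine ⟨n, ?_⟩
  intro l hl hn
  set e : MQ n ≃ₐ[ℚ] Module.End ℚ (Fin n → ℚ) := Matrix.toLinAlgEquiv' with he
  set ρ : A →* Module.End ℚ (Fin n → ℚ) :=
    (e : MQ n →* Module.End ℚ (Fin n → ℚ)).comp ((qgHom n).comp A.subtype) with hρ
  have hρa : ∀ a : A, ρ a = e (qg a.1) := fun a => rfl
  have hρs : ∀ a : A, ρ a - 1 = e (qg a.1 - 1) := by
    intro a
    rw [hρa, map_sub, map_one]
  have hnil : ∀ a, IsNilpotent (ρ a - 1) := by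
    intro a
    rw [hρs]
    exact (hA a.1 a.2).map e
  obtain ⟨l', hl'⟩ : ∃ l' : List A, List.map (Subtype.val : A → SLZ n) l' = l := by
    refine ⟨l.pmap Subtype.mk hl, ?_⟩
    rw [List.map_pmap]
    simp
  have h1 := KOL_main hKOT n (Fin n → ℚ) A ρ hnil (by simp) l' (by
    rw [← hl', List.length_map] at hn
    exact hn)
  have h2 : e ((l.map (fun a => qg a - 1)).prod) = 0 := by
    rw [map_list_prod, ← hl', List.map_map, List.map_map, ← h1]
    congr 1
    apply List.map_congr_left
    intro a _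
    exact (hρs a).symm
  exact (map_eq_zero_iff e e.injective).1 h2

end Pool.Agent.UG
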